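import Pool.Agent.Y922.AP.Stm

/-!
# Project AP, block T2: the inverse function of `log X` near infinity
-/

set_option autoImplicit false

open Filter Topology Set

namespace Pool.Agent.Y780.AP

open Pool.Agent.Y922.AP

/-- expansion -/
lemma expand {σ₀ : ℝ} {L : ℂ → ℂ} (hL : ∀ s : ℂ, σ₀ < s.re → AnalyticAt ℂ L s)
    (hd : ∀ s : ℂ, σ₀ < s.re → 1 ≤ (deriv L s).re) (s s' : ℂ) (hs : σ₀ < s.re) (hs' : σ₀ < s'.re) :
    ‖s - s'‖ ^ 2 ≤ ((L s - L s') * (starRingEnd ℂ) (s - s')).re := by
  set v : ℂ := s - s' with hv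
  have hre : ∀ t : ℝ, t ∈ Icc (0 : ℝ) 1 → σ₀ < (s' + t * v).re := by
    intro t ht
    have h1 : (s' + t * v).re = (1 - t) * s'.re + t * s.re := by
      rw [hv]; simp; ring
    rw [h1]
    rcases eq_or_lt_of_le ht.1 with h | h
    · rw [← h]; simpa using hs'
    · have h2 : t * σ₀ < t * s.re := mul_lt_mul_of_pos_left hs h
      have h3 : (1 - t) * σ₀ ≤ (1 - t) * s'.re := mul_le_mul_of_nonneg_left hs'.le (by linarith [ht.2])
      linarith
  set f : ℝ → ℝ := fun t => (L (s' + t * v) * (starRingEnd ℂ) v).re with hf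
  have hder : ∀ t : ℝ, t ∈ Icc (0 : ℝ) 1 →
      HasDerivAt f ((deriv L (s' + t * v) * v * (starRingEnd ℂ) v).re) t := by
    intro t ht
    have h1 : HasDerivAt (fun t : ℝ => s' + (t : ℂ) * v) v t := by
      have h2 : HasDerivAt (fun t : ℝ => (t : ℂ) * v) (1 * v) t :=
        (Complex.ofRealCLM.hasDerivAt (x := t)).mul_const v
      simpa using h2.const_add s'
    have h3 : HasDerivAt L (deriv L (s' + t * v)) (s' + t * v) :=
      (hL _ (hre t ht)).differentiableAt.hasDerivAt
    have h4 : HasDerivAt (fun t : ℝ => L (s' + (t : ℂ) * v)) (deriv L (s' + t * v) * v) t :=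
      h3.comp_of_eq t h1 rfl
    have h5 := h4.mul_const ((starRingEnd ℂ) v)
    have h6 := Complex.reCLM.hasFDerivAt.comp_hasDerivAt t h5
    exact h6
  have hval : ∀ t : ℝ, t ∈ Icc (0 : ℝ) 1 →
      ‖v‖ ^ 2 ≤ (deriv L (s' + t * v) * v * (starRingEnd ℂ) v).re := by
    intro t ht
    have h1 : deriv L (s' + t * v) * v * (starRingEnd ℂ) v = deriv L (s' + t * v) * ((‖v‖ ^ 2 : ℝ) : ℂ) := by
      rw [mul_assoc, Complex.mul_conj, Complex.normSq_eq_norm_sq]
    rw [h1, Complex.re_mul_ofReal]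
    have h2 := hd _ (hre t ht)
    nlinarith [sq_nonneg ‖v‖]
  obtain ⟨c, hc, hc2⟩ := exists_hasDerivAt_eq_slope f
    (fun t => (deriv L (s' + t * v) * v * (starRingEnd ℂ) v).re) (zero_lt_one)
    (fun t ht => (hder t ht).continuousAt.continuousWithinAt)
    (fun t ht => hder t ⟨ht.1.le, ht.2.le⟩)
  have h7 := hval c ⟨hc.1.le, hc.2.le⟩
  rw [hc2] at h7
  have h8 : f 1 - f 0 = ((L s - L s') * (starRingEnd ℂ) (s - s')).re := by
    rw [hf]
    simp only [Complex.ofReal_one, one_mul, Complex.ofReal_zero, zero_mul, add_zero]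
    rw [← Complex.sub_re, ← sub_mul]
    congr 3
    rw [hv]; ring_nf
  rw [← h8]
  simpa using h7

lemma expand' {σ₀ : ℝ} {L : ℂ → ℂ} (hL : ∀ s : ℂ, σ₀ < s.re → AnalyticAt ℂ L s)
    (hd : ∀ s : ℂ, σ₀ < s.re → 1 ≤ (deriv L s).re) (s s' : ℂ) (hs : σ₀ < s.re) (hs' : σ₀ < s'.re) :
    ‖s - s'‖ ≤ ‖L s - L s'‖ := by
  have h1 := expand hL hd s s' hs hs'
  have h2 : ((L s - L s') * (starRingEnd ℂ) (s - s')).re ≤ ‖L s - L s'‖ * ‖s - s'‖ := by
    refine (Complex.re_le_norm _).trans ?_
    rw [norm_mul, Complex.norm_conj]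
  rcases eq_or_lt_of_le (norm_nonneg (s - s')) with h | h
  · rw [← h]; exact norm_nonneg _
  · have h3 : ‖s - s'‖ * ‖s - s'‖ ≤ ‖L s - L s'‖ * ‖s - s'‖ := by
      rw [← sq]; exact h1.trans h2
    exact le_of_mul_le_mul_right h3 h

theorem t_T2 (h1 : S_STRIP) (h2 : S_LOG) (h3 : S_SYM) : S_T2 := by
  intro X hX hXs
  obtain ⟨σ₀, L, hσ, hLL⟩ := h2
  have hL : ∀ s : ℂ, σ₀ < s.re → AnalyticAt ℂ L s := fun s hs => (hLL s hs).1
  have hexp : ∀ s : ℂ, σ₀ < s.re → Complex.exp (L s) = xi s := fun s hs => (hLL s hs).2.1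
  have hd : ∀ s : ℂ, σ₀ < s.re → 1 ≤ (deriv L s).re := fun s hs => (hLL s hs).2.2
  have hE := expand' hL hd
  -- the bound on the strip
  obtain ⟨R, hR⟩ : ∃ R : ℝ, ∀ s : ℂ, |s.re| ≤ σ₀ + 1 → ‖xi s‖ ≤ Real.exp R := by
    obtain ⟨T, hT⟩ := h1 1 (σ₀ + 1) zero_lt_one
    have hK : IsCompact (Icc (-(σ₀ + 1)) (σ₀ + 1) ×ℂ Icc (-|T|) (|T|)) :=
      isCompact_Icc.reProdIm isCompact_Icc
    obtain ⟨M, hM⟩ := hK.exists_bound_of_continuousOn (f := xi) h3.2.2.1.continuous.continuousOn
    refine ⟨Real.log (max M 1), fun s hs => ?_⟩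
    rw [Real.exp_log (by positivity)]
    rcases le_or_gt T |s.im| with h | h
    · exact (hT s hs h).le.trans (le_max_right _ _)
    · refine (hM s ?_).trans (le_max_left _ _)
      rw [Complex.mem_reProdIm]
      refine ⟨abs_le.1 hs, abs_le.1 ?_⟩
      exact h.le.trans (le_abs_self T)
  -- points where the real part of the logarithm is large
  have hfar : ∀ s : ℂ, 0 ≤ s.re → Real.exp R < ‖xi s‖ → σ₀ + 1 < s.re := by
    intro s hs hs2
    by_contra hcon
    push Not at hcon
    have := hR s (by rw [abs_of_nonneg hs]; exact hcon)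
    linarith
  have hnorm : ∀ s : ℂ, σ₀ < s.re → ‖xi s‖ = Real.exp (L s).re := by
    intro s hs
    rw [← hexp s hs, Complex.norm_exp]
  have hfar2 : ∀ s : ℂ, σ₀ < s.re → R < (L s).re → σ₀ + 1 < s.re := by
    intro s hs hs2
    refine hfar s (by linarith) ?_
    rw [hnorm s hs]
    exact Real.exp_lt_exp.2 hs2
  -- surjectivity onto the half-plane
  have hsurj : {W : ℂ | R < W.re} ⊆ L '' {s : ℂ | σ₀ < s.re} := by
    have hopen0 : IsOpen {s : ℂ | σ₀ < s.re} := isOpen_lt continuous_const Complex.continuous_re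
    have hconv : Convex ℝ {W : ℂ | R < W.re} := convex_halfSpace_re_gt R
    refine hconv.isPreconnected.subset_of_closure_inter_subset ?_ ?_ ?_
    · rw [isOpen_iff_mem_nhds]
      rintro _ ⟨s, hs, rfl⟩
      have hd0 : deriv L s ≠ 0 := by
        intro h0
        have := hd s hs
        rw [h0] at this
        norm_num at this
      have h4 : HasStrictDerivAt L (deriv L s) s := (hL s hs).hasStrictDerivAt
      have h5 := h4.map_nhds_eq hd0
      rw [← h5]
      exact image_mem_map (hopen0.mem_nhds hs)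
    · set s1 : ℂ := ((σ₀ + 1 : ℝ) : ℂ) with hs1
      set t : ℝ := max 1 (R + 1 - (L s1).re) with ht
      have ht1 : 1 ≤ t := le_max_left _ _
      set s2 : ℂ := ((σ₀ + 1 + t : ℝ) : ℂ) with hs2
      have hr1 : σ₀ < s1.re := by rw [hs1, Complex.ofReal_re]; linarith
      have hr2 : σ₀ < s2.re := by rw [hs2, Complex.ofReal_re]; linarith
      have h6 := expand hL hd s2 s1 hr2 hr1
      have h7 : s2 - s1 = ((t : ℝ) : ℂ) := by rw [hs2, hs1]; push_cast; ring
      rw [h7, Complex.conj_ofReal, Complex.re_mul_ofReal, Complex.norm_real, Real.norm_eq_abs,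
        abs_of_pos (by linarith)] at h6
      have h8 : t ≤ (L s2 - L s1).re := by
        have h9 : t * t ≤ (L s2 - L s1).re * t := by rw [← sq]; exact h6
        exact le_of_mul_le_mul_right h9 (by linarith)
      refine ⟨L s2, ?_, s2, hr2, rfl⟩
      have h10 : R + 1 - (L s1).re ≤ t := le_max_right _ _
      rw [Complex.sub_re] at h8
      show R < (L s2).re
      linarith
    · rintro W ⟨hW, hWR⟩
      obtain ⟨w, hw, hwt⟩ := mem_closure_iff_seq_limit.1 hW
      choose s hs hsw using hw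
      have hev : ∀ᶠ n in atTop, R < (L (s n)).re := by
        have h4 : Tendsto (fun n => (L (s n)).re) atTop (𝓝 W.re) := by
          have h5 : Tendsto (fun n => L (s n)) atTop (𝓝 W) := by
            refine hwt.congr fun n => ?_
            exact (hsw n).symm
          exact (Complex.continuous_re.tendsto W).comp h5
        exact h4.eventually (lt_mem_nhds hWR)
      have hcau : CauchySeq s := by
        have h5 : CauchySeq (fun n => L (s n)) := by
          have h6 : (fun n => L (s n)) = w := funext hsw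
          rw [h6]
          exact hwt.cauchySeq
        rw [Metric.cauchySeq_iff] at h5 ⊢
        intro ε hε
        obtain ⟨N, hN⟩ := h5 ε hε
        refine ⟨N, fun m hm n hn => ?_⟩
        refine lt_of_le_of_lt ?_ (hN m hm n hn)
        rw [dist_eq_norm, dist_eq_norm]
        exact hE _ _ (hs m) (hs n)
      obtain ⟨z, hz⟩ := cauchySeq_tendsto_of_complete hcau
      have hzre : σ₀ + 1 ≤ z.re := by
        have h5 : Tendsto (fun n => (s n).re) atTop (𝓝 z.re) := (Complex.continuous_re.tendsto z).comp hz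
        refine ge_of_tendsto h5 ?_
        filter_upwards [hev] with n hn
        exact (hfar2 _ (hs n) hn).le
      have hz0 : σ₀ < z.re := by linarith
      refine ⟨z, hz0, ?_⟩
      have h6 : Tendsto (fun n => L (s n)) atTop (𝓝 (L z)) := ((hL z hz0).continuousAt.tendsto).comp hz
      have h7 : Tendsto (fun n => L (s n)) atTop (𝓝 W) := by
        refine hwt.congr fun n => ?_
        exact (hsw n).symm
      exact tendsto_nhds_unique h6 h7
  -- the inverse function
  have hchoice : ∀ W : ℂ, ∃ s : ℂ, R < W.re → σ₀ < s.re ∧ L s = W := by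
    intro W
    by_cases h : R < W.re
    · obtain ⟨s, hs, hs2⟩ := hsurj h
      exact ⟨s, fun _ => ⟨hs, hs2⟩⟩
    · exact ⟨0, fun h' => absurd h' h⟩
  choose inv hinv using hchoice
  have hH : IsOpen {W : ℂ | R < W.re} := isOpen_lt continuous_const Complex.continuous_re
  have hlip : ∀ W W' : ℂ, R < W.re → R < W'.re → ‖inv W - inv W'‖ ≤ ‖W - W'‖ := by
    intro W W' hW hW'
    have h4 := hE (inv W) (inv W') (hinv W hW).1 (hinv W' hW').1
    rwa [(hinv W hW).2, (hinv W' hW').2] at h4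
  have hcont : ∀ W : ℂ, R < W.re → ContinuousAt inv W := by
    intro W hW
    rw [Metric.continuousAt_iff]
    intro ε hε
    obtain ⟨δ, hδ, hδ2⟩ := Metric.isOpen_iff.1 hH W hW
    refine ⟨min δ ε, lt_min hδ hε, fun W' hW' => ?_⟩
    have h5 : R < W'.re := hδ2 (Metric.mem_ball.2 (lt_of_lt_of_le hW' (min_le_left _ _)))
    rw [dist_eq_norm] at hW' ⊢
    exact lt_of_le_of_lt (hlip W' W h5 hW) (lt_of_lt_of_le hW' (min_le_right _ _))
  have hdiff : ∀ W : ℂ, R < W.re → DifferentiableAt ℂ inv W := by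
    intro W hW
    have hs := (hinv W hW).1
    have hd0 : deriv L (inv W) ≠ 0 := by
      intro h0
      have := hd _ hs
      rw [h0] at this
      norm_num at this
    have h4 : HasDerivAt L (deriv L (inv W)) (inv W) := (hL _ hs).differentiableAt.hasDerivAt
    have h5 : ∀ᶠ y in 𝓝 W, L (inv y) = y := by
      filter_upwards [hH.mem_nhds hW] with y hy
      exact (hinv y hy).2
    exact (HasDerivAt.of_local_left_inverse (hcont W hW) h4 hd0 h5).differentiableAt
  refine ⟨R, fun W => (inv W - 1 / 2) ^ 2, ?_, ?_, ?_, ?_⟩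
  · intro W hW
    have h4 : DifferentiableOn ℂ inv {W : ℂ | R < W.re} := fun W' hW' => (hdiff W' hW').differentiableWithinAt
    have h5 : AnalyticAt ℂ inv W := h4.analyticAt (hH.mem_nhds hW)
    exact (h5.sub analyticAt_const).pow 2
  · intro W hW
    show X ((inv W - 1 / 2) ^ 2) = Complex.exp W
    rw [hXs, ← hexp _ (hinv W hW).1, (hinv W hW).2]
  · intro W W' hW hW' h
    change (inv W - 1 / 2) ^ 2 = (inv W' - 1 / 2) ^ 2 at h
    rcases sq_eq_sq_iff_eq_or_eq_neg.1 h with h4 | h4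
    · have h5 : inv W = inv W' := by linear_combination h4
      rw [← (hinv W hW).2, h5, (hinv W' hW').2]
    · exfalso
      have h5 := congrArg Complex.re h4
      have h6 : (1 / 2 : ℂ).re = 1 / 2 := by norm_num
      rw [Complex.neg_re, Complex.sub_re, Complex.sub_re, h6] at h5
      have h7 := (hinv W hW).1
      have h8 := (hinv W' hW').1
      linarith
  · intro y hy
    obtain ⟨r, hr, hr0⟩ : ∃ r : ℂ, r ^ 2 = y ∧ 0 ≤ r.re := by
      obtain ⟨z, hz⟩ := IsAlgClosed.exists_pow_nat_eq y (n := 2) (by norm_num)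
      rcases le_total 0 z.re with h | h
      · exact ⟨z, hz, h⟩
      · exact ⟨-z, by rw [neg_sq, hz], by rw [Complex.neg_re]; linarith⟩
    set s : ℂ := 1 / 2 + r with hs
    have h6 : (1 / 2 : ℂ).re = 1 / 2 := by norm_num
    have hsre : s.re = 1 / 2 + r.re := by rw [hs, Complex.add_re, h6]
    have hxs : X y = xi s := by
      rw [← hXs s, ← hr]
      congr 1
      rw [hs]; ring
    have hfs : σ₀ + 1 < s.re := hfar s (by rw [hsre]; linarith) (by rw [← hxs]; exact hy)
    have hs0 : σ₀ < s.re := by linarith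
    have hW : R < (L s).re := by
      rw [hxs, hnorm s hs0] at hy
      exact Real.exp_lt_exp.1 hy
    refine ⟨L s, hW, ?_⟩
    have h7 : inv (L s) = s := by
      have h8 := hE _ _ (hinv _ hW).1 hs0
      rw [(hinv _ hW).2, sub_self, norm_zero] at h8
      exact sub_eq_zero.1 (norm_le_zero_iff.1 h8)
    show (inv (L s) - 1 / 2) ^ 2 = y
    rw [h7, hs, ← hr]
    ring

end Pool.Agent.Y780.AP
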